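import Pool.Agent.H7.LP.Targets3

/-!
# Row RSR of the board lpq: a sequence of indices which is good for two codes
-/

set_option autoImplicit false

open Set Filter Topology

namespace Pool.Agent.H38.LQ

open Pool.Agent.H7.LQ Pool.Agent.H7.LP

theorem pf_RSR (h1 : T_DIQ) : T_RSR := by
  classical
  intro G X _ _ _ _ _ _ B L M _ Y S x x' e e' w hc hc' hs hs'
  have st : ∀ (s : ℕ) (i : ℕ), ∃ l : ℕ, (w.2 l i).1 = true ∧ s ≤ (w.1 l).1 ∧
      (s % 2 = 0 → (e l).2.2 ∈ L.H (w.1 l).1) ∧ (s % 2 = 1 → (e' l).2.2 ∈ L.H (w.1 l).1) := by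
    intro s i
    rcases Nat.mod_two_eq_zero_or_one s with h | h
    · obtain ⟨l, p1, p2, p3, -⟩ := h1 G X B L M Y S x e w hc hs i i s
      exact ⟨l, p3, p1, fun _ => p2, fun h' => by omega⟩
    · obtain ⟨l, p1, p2, p3, -⟩ := h1 G X B L M Y S x' e' w hc' hs' i i s
      exact ⟨l, p3, p1, fun h' => by omega, fun _ => p2⟩
  choose f hf1 hf2 hf3 hf4 using st
  let u : ℕ → ℕ := fun s => Nat.rec 0 (fun s i => f s i) s
  refine ⟨u, fun s => hf1 s (u s), fun m => ⟨2 * m + 1, ?_, ?_⟩, fun m => ⟨2 * m + 1 + 1, ?_, ?_⟩⟩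
  · have := hf2 (2 * m) (u (2 * m))
    exact le_trans (by omega) this
  · exact hf3 (2 * m) (u (2 * m)) (by omega)
  · have := hf2 (2 * m + 1) (u (2 * m + 1))
    exact le_trans (by omega) this
  · exact hf4 (2 * m + 1) (u (2 * m + 1)) (by omega)

end Pool.Agent.H38.LQ
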